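import Mathlib
import Pool.Agent.X94.StubE

/-!
MP_982b0b_ag, Q1: the dichotomy is FALSE.  The variety is the third Veronese embedding `X ⊂ ℙ^63` of
the cubic surface `a c d = b³`; with the Motzkin quadric `C = a²+c²+d²-3b²` and
`A₁ = c+d-a-b`, `A₂ = a+d-b-c`, `A₃ = a+c-b-d`, the face of `P_X` generated by
`C²(A₁²+A₂²+A₃²)` contains in its relative interior the stubborn element
`C²(A₁²+A₂²+A₃²) - (A₁A₂A₃)²/6` and the sum of squares `C²(A₁²+A₂²+A₃²) + (A₁A₂A₃)²`.
-/

namespace Pool.Agent.Results.MP_982b0b_ag.MixedFace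

open Pool.Agent.X94.Stub MvPolynomial

/-- There are a totally real projective variety (given by the cone `V` over its real points) and a
face `F` of its cone of nonnegative quadratic forms whose relative interior contains both a stubborn
quadratic form and a quadratic form that is itself a sum of squares, hence not stubborn. -/
theorem result :
    ∃ (n : ℕ) (V : Set (Fin (n + 1) → ℝ)), IsProjCone V ∧
      ∃ F : Set (forms V 2), IsFace (psdCone V) F ∧
        (∃ f ∈ intrinsicInterior ℝ F, Stubborn V (f : V → ℝ)) ∧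
        (∃ g ∈ intrinsicInterior ℝ F, IsSOS V 1 (g : V → ℝ) ∧ ¬ Stubborn V (g : V → ℝ)) := by
  have hfin : FiniteDimensional ℝ (forms VV 2) :=
    Module.Finite.iff_fg.mpr ((homogeneousSubmodule_fg (Fin (63 + 1)) ℝ 2).map (restr VV))
  have hmem : ∀ p : MvPolynomial (Fin (63 + 1)) ℝ, p.IsHomogeneous 2 →
      restr VV p ∈ forms VV 2 := fun p hp =>
    Submodule.mem_map.mpr ⟨p, (mem_homogeneousSubmodule 2 p).mpr hp, rfl⟩
  let B : forms VV 2 := ⟨restr VV pB, hmem _ pB_hom⟩
  let f : forms VV 2 := ⟨restr VV pF, hmem _ pF_hom⟩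
  let g : forms VV 2 := ⟨restr VV pG, hmem _ pG_hom⟩
  have hB : ∀ x, 0 ≤ (B : VV → ℝ) x := by
    intro x
    obtain ⟨q, rfl⟩ := pt_surj x
    show 0 ≤ restr VV pB (pt q)
    rw [restr_pt, Ev_pB]
    exact BB_nonneg q
  refine ⟨63, VV, VV_cone, dom (forms VV 2) B, dom_face _ rfl B, ⟨f, ?_, stub_F⟩, ⟨g, ?_, ?_, sos_G⟩⟩
  · refine mem_relint B f hB (δ := 1 / 2) (by norm_num) (fun x => ?_) (c := 1) (fun x => ?_)
    · obtain ⟨q, rfl⟩ := pt_surj x
      show 1 / 2 * restr VV pB (pt q) ≤ restr VV pF (pt q)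
      rw [restr_pt, restr_pt, Ev_pB]
      exact (F_bounds q).1
    · obtain ⟨q, rfl⟩ := pt_surj x
      show restr VV pF (pt q) ≤ 1 * restr VV pB (pt q)
      rw [restr_pt, restr_pt, Ev_pB, one_mul]
      exact (F_bounds q).2
  · refine mem_relint B g hB (δ := 1) one_pos (fun x => ?_) (c := 4) (fun x => ?_)
    · obtain ⟨q, rfl⟩ := pt_surj x
      show 1 * restr VV pB (pt q) ≤ restr VV pG (pt q)
      rw [restr_pt, restr_pt, Ev_pB]
      exact (G_bounds q).1
    · obtain ⟨q, rfl⟩ := pt_surj x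
      show restr VV pG (pt q) ≤ 4 * restr VV pB (pt q)
      rw [restr_pt, restr_pt, Ev_pB]
      exact (G_bounds q).2
  · exact sos_G'

end Pool.Agent.Results.MP_982b0b_ag.MixedFace
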